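import Pool.Agent.Helper26.RP.Goals

/-! Packet ABS. -/

namespace RP.PkABS

open Finset

/-- the exponent of the bound -/
noncomputable def EE (M t : ℝ) : ℝ := if t ≤ M then 3 * t else 9 * M - 6 * M * Real.sqrt (M / t)

theorem EE_le {M t : ℝ} (hM : 0 < M) : EE M t ≤ 9 * M := by
  unfold EE
  split_ifs with h
  · linarith
  · have := Real.sqrt_nonneg (M / t)
    nlinarith

/-- tangent lines -/
theorem tangent {M m t : ℝ} (hM : 0 < M) (hm : M < m) (_ : 0 ≤ t) (_ : t ≤ m) :
    EE M t ≤ EE M m - (m - t) * (3 * Real.sqrt (M / m) ^ 3) := by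
  have hm0 : 0 < m := hM.trans hm
  obtain ⟨y, hy⟩ : ∃ y, y = Real.sqrt (M / m) := ⟨_, rfl⟩
  have hy0 : 0 < y := by rw [hy]; exact Real.sqrt_pos.2 (div_pos hM hm0)
  have hy2 : y ^ 2 = M / m := by rw [hy]; exact Real.sq_sqrt (div_pos hM hm0).le
  have hy2' : m * y ^ 2 = M := by rw [hy2]; field_simp
  have hy1 : y < 1 := by
    have : y ^ 2 < 1 := by rw [hy2, div_lt_one hm0]; exact hm
    nlinarith
  have e1 : EE M m = 9 * M - 6 * M * y := by
    unfold EE; rw [if_neg (not_le.2 hm), ← hy]
  rw [e1, ← hy]
  by_cases h : t ≤ M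
  · have e2 : EE M t = 3 * t := by unfold EE; rw [if_pos h]
    rw [e2]
    have h3 : m * (3 * y ^ 3) = 3 * M * y := by rw [← hy2']; ring
    have h4 : 0 ≤ (1 - y) * ((M - t) * (1 + y + y ^ 2) + M * (2 - y - y ^ 2)) := by
      refine mul_nonneg (by linarith) (add_nonneg (mul_nonneg (by linarith) (by positivity)) ?_)
      exact mul_nonneg hM.le (by nlinarith)
    nlinarith
  · have h : M < t := not_le.1 h
    have ht : 0 < t := hM.trans h
    obtain ⟨z, hz⟩ : ∃ z, z = Real.sqrt (M / t) := ⟨_, rfl⟩
    have hz0 : 0 < z := by rw [hz]; exact Real.sqrt_pos.2 (div_pos hM ht)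
    have hz2 : z ^ 2 = M / t := by rw [hz]; exact Real.sq_sqrt (div_pos hM ht).le
    have hz2' : t * z ^ 2 = M := by rw [hz2]; field_simp
    have e2 : EE M t = 9 * M - 6 * M * z := by
      unfold EE; rw [if_neg (not_le.2 h), ← hz]
    rw [e2]
    have h3 : m * (3 * y ^ 3) = 3 * M * y := by rw [← hy2']; ring
    have h5 : 0 ≤ (z - y) ^ 2 * (2 * z + y) := by positivity
    have h6 : 0 ≤ t * (3 * ((z - y) ^ 2 * (2 * z + y))) := by positivity
    have h7 : t * (3 * ((z - y) ^ 2 * (2 * z + y))) =
        6 * (t * z ^ 2) * z - 9 * (t * z ^ 2) * y + t * (3 * y ^ 3) := by ring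
    rw [h7, hz2'] at h6
    nlinarith

/-- the recursion inequality -/
theorem rec_ineq {M m d : ℝ} (hM : 0 < M) (hm : M < m) (hd : m ^ 2 ≤ M ^ 2 * d)
    (hdm : d + 1 ≤ m) :
    Real.exp (EE M (m - 1)) + Real.exp (EE M (m - 1 - d)) ≤ Real.exp (EE M m) := by
  have hm0 : 0 < m := hM.trans hm
  have hd0 : 0 < d := by
    have h1 : 0 < m ^ 2 := by positivity
    have h2 : 0 < M ^ 2 * d := h1.trans_le hd
    exact (mul_pos_iff_of_pos_left (by positivity)).1 h2
  have h1 := tangent (t := m - 1) hM hm (by linarith) (by linarith)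
  have h2 := tangent (t := m - 1 - d) hM hm (by linarith) (by linarith)
  obtain ⟨y, hy⟩ : ∃ y, y = Real.sqrt (M / m) := ⟨_, rfl⟩
  have hy0 : 0 < y := by rw [hy]; exact Real.sqrt_pos.2 (div_pos hM hm0)
  have hy2 : y ^ 2 = M / m := by rw [hy]; exact Real.sq_sqrt (div_pos hM hm0).le
  have hy2' : m * y ^ 2 = M := by rw [hy2]; field_simp
  rw [← hy] at h1 h2
  have hdy : 1 ≤ y ^ 4 * d := by
    have h3 : m ^ 2 * (y ^ 4 * d) = M ^ 2 * d := by rw [← hy2']; ring
    have h4 : m ^ 2 * 1 ≤ m ^ 2 * (y ^ 4 * d) := by rw [h3]; linarith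
    exact le_of_mul_le_mul_left h4 (by positivity)
  set s : ℝ := 3 * y ^ 3 with hs
  have hs0 : 0 < s := by positivity
  have hds : 3 / y ≤ d * s := by
    rw [div_le_iff₀ hy0, hs]
    nlinarith
  have h1' : Real.exp (EE M (m - 1)) ≤ Real.exp (EE M m) * Real.exp (-s) := by
    rw [← Real.exp_add]
    exact Real.exp_le_exp.2 (by linarith)
  have h2' : Real.exp (EE M (m - 1 - d)) ≤ Real.exp (EE M m) * (Real.exp (-s) * Real.exp (-(d * s))) := by
    rw [← Real.exp_add, ← Real.exp_add]
    exact Real.exp_le_exp.2 (by linarith)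
  have h3 : Real.exp (-(d * s)) ≤ s := by
    have h4 : 1 / y ≤ Real.exp (1 / y) := by
      have := Real.add_one_le_exp (1 / y)
      linarith
    have h5 : (1 / y) ^ 3 ≤ Real.exp (3 / y) := by
      calc (1 / y) ^ 3 ≤ (Real.exp (1 / y)) ^ 3 := pow_le_pow_left₀ (by positivity) h4 3
        _ = Real.exp (3 / y) := by
          rw [← Real.exp_nat_mul]
          congr 1
          push_cast
          ring
    have h6 : (1 / y) ^ 3 ≤ Real.exp (d * s) := h5.trans (Real.exp_le_exp.2 hds)
    rw [Real.exp_neg]
    have h7 : (Real.exp (d * s))⁻¹ ≤ ((1 / y) ^ 3)⁻¹ := inv_anti₀ (by positivity) h6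
    have h8 : ((1 / y) ^ 3)⁻¹ = y ^ 3 := by
      rw [one_div, inv_pow, inv_inv]
    rw [h8] at h7
    have : 0 < y ^ 3 := by positivity
    linarith
  have h4 : Real.exp (-s) * (1 + s) ≤ 1 := by
    have h5 := Real.add_one_le_exp s
    have h6 : Real.exp (-s) * Real.exp s = 1 := by rw [← Real.exp_add]; simp
    have h7 := Real.exp_pos (-s)
    nlinarith
  have h5 : Real.exp (-s) + Real.exp (-s) * Real.exp (-(d * s)) ≤ 1 := by
    have h6 := mul_le_mul_of_nonneg_left h3 (Real.exp_pos (-s)).le
    nlinarith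
  have h6 := mul_le_mul_of_nonneg_left h5 (Real.exp_pos (EE M m)).le
  nlinarith

variable {V : Type}

open Classical in
/-- the conflict-free subsets -/
noncomputable def fam (cr : V → V → Prop) (F : Finset V) : Finset (Finset V) :=
  F.powerset.filter fun G => ∀ e ∈ G, ∀ f ∈ G, ¬ cr e f

open Classical in
theorem fam_rec (cr : V → V → Prop) (F : Finset V) (f : V) :
    (fam cr F).card ≤ (fam cr (F.erase f)).card +
      (fam cr ((F.erase f).filter fun e => ¬ cr f e)).card := by
  have h1 : fam cr F ⊆ fam cr (F.erase f) ∪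
      (fam cr ((F.erase f).filter fun e => ¬ cr f e)).image (insert f) := by
    intro G hG
    unfold fam at hG
    rw [mem_filter, mem_powerset] at hG
    rw [mem_union, mem_image]
    by_cases hf : f ∈ G
    · right
      refine ⟨G.erase f, ?_, insert_erase hf⟩
      unfold fam
      rw [mem_filter, mem_powerset]
      refine ⟨?_, fun a ha b hb => hG.2 a (mem_of_mem_erase ha) b (mem_of_mem_erase hb)⟩
      intro a ha
      rw [mem_filter, mem_erase]
      exact ⟨⟨ne_of_mem_erase ha, hG.1 (mem_of_mem_erase ha)⟩, hG.2 f hf a (mem_of_mem_erase ha)⟩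
    · left
      unfold fam
      rw [mem_filter, mem_powerset]
      refine ⟨?_, hG.2⟩
      intro a ha
      rw [mem_erase]
      exact ⟨fun h => hf (h ▸ ha), hG.1 ha⟩
  calc (fam cr F).card ≤ _ := card_le_card h1
    _ ≤ _ := card_union_le _ _
    _ ≤ _ := by
      have := card_image_le (s := fam cr ((F.erase f).filter fun e => ¬ cr f e)) (f := insert f)
      omega

open Classical in
theorem fam_two (cr : V → V → Prop) (F : Finset V) : (fam cr F).card ≤ 2 ^ F.card := by
  unfold fam
  calc _ ≤ F.powerset.card := card_filter_le _ _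
    _ = _ := card_powerset F

open Classical in
theorem exists_deg (cr : V → V → Prop) (F : Finset V) (n : ℕ) (hF : 0 < F.card)
    (h : F.card ^ 3 ≤ 144 * n ^ 2 * ((F ×ˢ F).filter fun z => cr z.1 z.2).card) :
    ∃ f ∈ F, F.card ^ 2 ≤ 144 * n ^ 2 * (F.filter fun e => cr f e).card := by
  by_contra hcon
  push Not at hcon
  have h1 : ((F ×ˢ F).filter fun z => cr z.1 z.2).card = ∑ f ∈ F, (F.filter fun e => cr f e).card := by
    rw [card_filter, sum_product]
    refine sum_congr rfl fun f _ => ?_
    rw [card_filter]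
  rw [h1, mul_sum] at h
  have h2 : ∑ f ∈ F, 144 * n ^ 2 * (F.filter fun e => cr f e).card < ∑ _f ∈ F, F.card ^ 2 :=
    sum_lt_sum_of_nonempty (card_pos.1 hF) fun f hf => hcon f hf
  rw [sum_const, smul_eq_mul] at h2
  have h3 : F.card * F.card ^ 2 = F.card ^ 3 := by ring
  omega

open Classical in
theorem absl : G_ABS := by
  refine ⟨108, by norm_num, ?_⟩
  intro n V F0 cr hn hsym hirr hcr
  have hM : (0:ℝ) < 12 * n := by
    have : (1:ℝ) ≤ n := by exact_mod_cast hn
    linarith
  have key : ∀ k : ℕ, ∀ F ⊆ F0, F.card = k →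
      ((fam cr F).card : ℝ) ≤ Real.exp (EE (12 * n) k) := by
    intro k
    induction k using Nat.strong_induction_on with
    | _ k ih =>
      intro F hF hk
      by_cases hs : k ≤ 12 * n
      · have e1 : EE (12 * n) k = 3 * k := by
          unfold EE
          rw [if_pos (by exact_mod_cast hs)]
        rw [e1]
        have h1 := fam_two cr F
        rw [hk] at h1
        have h2 : ((fam cr F).card : ℝ) ≤ 2 ^ k := by exact_mod_cast h1
        refine h2.trans ?_
        rw [mul_comm, Real.exp_nat_mul]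
        refine pow_le_pow_left₀ (by norm_num) ?_ k
        have := Real.add_one_le_exp (3:ℝ)
        linarith
      · push Not at hs
        obtain ⟨f, hf, hd⟩ := exists_deg cr F n (by omega) (hcr F hF (by omega))
        set d := (F.filter fun e => cr f e).card with hddef
        have hc1 : (F.erase f).card = k - 1 := by rw [card_erase_of_mem hf, hk]
        have hc2 : ((F.erase f).filter fun e => ¬ cr f e).card = k - 1 - d := by
          have h1 := card_filter_add_card_filter_not (s := F.erase f) (fun e => cr f e)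
          have h2 : (F.erase f).filter (fun e => cr f e) = F.filter fun e => cr f e := by
            ext a
            rw [mem_filter, mem_filter, mem_erase]
            constructor
            · rintro ⟨⟨_, h⟩, h'⟩
              exact ⟨h, h'⟩
            · rintro ⟨h, h'⟩
              exact ⟨⟨fun e => hirr f (e ▸ h'), h⟩, h'⟩
          rw [h2] at h1
          omega
        have hdk : d + 1 ≤ k := by
          have h1 : (F.filter fun e => cr f e) ⊆ F.erase f := by
            intro a ha
            rw [mem_filter] at ha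
            rw [mem_erase]
            exact ⟨fun e => hirr f (e ▸ ha.2), ha.1⟩
          have h2 := card_le_card h1
          rw [hc1] at h2
          omega
        have i1 := ih (k - 1) (by omega) (F.erase f) ((erase_subset _ _).trans hF) hc1
        have i2 := ih (k - 1 - d) (by omega) ((F.erase f).filter fun e => ¬ cr f e)
          ((filter_subset _ _).trans ((erase_subset _ _).trans hF)) hc2
        have h3 := fam_rec cr F f
        have h3' : ((fam cr F).card : ℝ) ≤ (fam cr (F.erase f)).card +
          (fam cr ((F.erase f).filter fun e => ¬ cr f e)).card := by exact_mod_cast h3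
        have e1 : ((k - 1 : ℕ) : ℝ) = k - 1 := by
          rw [Nat.cast_sub (by omega)]; simp
        have e2 : ((k - 1 - d : ℕ) : ℝ) = k - 1 - d := by
          rw [Nat.cast_sub (by omega), e1]
        rw [e1] at i1
        rw [e2] at i2
        have h4 := rec_ineq (M := 12 * n) (m := k) (d := d) hM (by exact_mod_cast hs) (by
          have h5 : ((k ^ 2 : ℕ) : ℝ) ≤ ((144 * n ^ 2 * d : ℕ) : ℝ) := by
            rw [hk] at hd
            exact_mod_cast hd
          push_cast at h5
          nlinarith) (by exact_mod_cast hdk)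
        linarith
  have h1 := key F0.card F0 Subset.rfl rfl
  have h2 := EE_le (t := F0.card) hM
  have h3 : Real.exp (EE (12 * n) F0.card) ≤ Real.exp (108 * n) :=
    Real.exp_le_exp.2 (by linarith)
  have h4 := h1.trans h3
  unfold fam at h4
  refine le_trans (le_of_eq ?_) h4
  congr!

end RP.PkABS
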