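import Pool.Agent.Helper26.RP.Goals

/-! Packet EXC. -/

namespace RP.PkEXC

open MeasureTheory Filter Topology

variable {n : ℕ}

/-- the box -/
def PP (n : ℕ) (K : Set E) : Set (Fin n → E) := {x | ∀ i, x i ∈ K}

theorem PP_eq (n : ℕ) (K : Set E) : PP n K = Set.pi Set.univ fun _ : Fin n => K := by
  ext x
  simp [PP]

theorem PP_vol (n : ℕ) (K : Set E) : volume (PP n K) = volume K ^ n := by
  rw [PP_eq, volume_pi_pi]
  simp

theorem PP_meas (n : ℕ) {K : Set E} (hK : MeasurableSet K) : MeasurableSet (PP n K) := by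
  rw [PP_eq]
  exact MeasurableSet.univ_pi fun _ => hK

/-- permuting the coordinates preserves the volume -/
theorem comp_mp (σ : Equiv.Perm (Fin n)) :
    MeasurePreserving (fun x : Fin n → E => x ∘ σ) volume volume := by
  have h := volume_measurePreserving_piCongrLeft (fun _ : Fin n => E) σ.symm
  have e : (fun x : Fin n → E => x ∘ σ) =
      MeasurableEquiv.piCongrLeft (fun _ : Fin n => E) σ.symm := by
    funext x
    funext i
    have h2 := MeasurableEquiv.piCongrLeft_apply_apply (β := fun _ : Fin n => E) σ.symm x (σ i)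
    rw [Equiv.symm_apply_apply] at h2
    rw [h2]
    rfl
  rw [e]
  exact h

theorem vol_perm (hm : G_MEA) (K : Set E) (hK : MeasurableSet K) (σ : Equiv.Perm (Fin n)) :
    volume (PP n K ∩ {x | Cl (finRotate n) (x ∘ σ)}) = vc n K := by
  have h1 : PP n K ∩ {x | Cl (finRotate n) (x ∘ σ)} =
      (fun x : Fin n → E => x ∘ σ) ⁻¹' {x | (∀ i, x i ∈ K) ∧ Cl (finRotate n) x} := by
    ext x
    simp only [Set.mem_inter_iff, Set.mem_preimage, Set.mem_ofPred_eq, PP, Function.comp]
    constructor
    · rintro ⟨h, h'⟩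
      exact ⟨fun i => h _, h'⟩
    · rintro ⟨h, h'⟩
      refine ⟨fun i => ?_, h'⟩
      have := h (σ.symm i)
      rwa [Equiv.apply_symm_apply] at this
  rw [h1, (comp_mp σ).measure_preimage (hm.2.2.2.1 K n hK).nullMeasurableSet]
  rfl

open Classical in
theorem sum_eq (hm : G_MEA) (K : Set E) (hK : MeasurableSet K) :
    (n.factorial : ENNReal) * vc n K = ∫⁻ x in PP n K,
      ((Finset.univ.filter fun σ : Equiv.Perm (Fin n) => Cl (finRotate n) (x ∘ σ)).card :
        ENNReal) := by
  have hmeas : ∀ σ : Equiv.Perm (Fin n), MeasurableSet {x : Fin n → E | Cl (finRotate n) (x ∘ σ)} := by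
    intro σ
    exact (comp_mp σ).measurable (hm.2.2.1 (Fin n) (finRotate n))
  have h1 : ∀ x : Fin n → E,
      ((Finset.univ.filter fun σ : Equiv.Perm (Fin n) => Cl (finRotate n) (x ∘ σ)).card :
        ENNReal) = ∑ σ : Equiv.Perm (Fin n),
          ({x : Fin n → E | Cl (finRotate n) (x ∘ σ)}).indicator (fun _ => (1 : ENNReal)) x := by
    intro x
    rw [Finset.card_filter]
    push_cast
    refine Finset.sum_congr rfl fun σ _ => ?_
    rw [Set.indicator_apply]
    rfl
  simp_rw [h1]
  rw [lintegral_finsetSum]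
  · have h2 : ∀ σ : Equiv.Perm (Fin n), ∫⁻ x in PP n K,
        ({x : Fin n → E | Cl (finRotate n) (x ∘ σ)}).indicator (fun _ => (1 : ENNReal)) x =
        vc n K := by
      intro σ
      rw [lintegral_indicator (hmeas σ), setLIntegral_one, Measure.restrict_apply (hmeas σ),
        Set.inter_comm]
      exact vol_perm hm K hK σ
    simp_rw [h2]
    rw [Finset.sum_const, Finset.card_univ, Fintype.card_perm, Fintype.card_fin, nsmul_eq_mul]
  · intro σ _
    exact measurable_const.indicator (hmeas σ)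

theorem exc : G_EXI → G_CNT → G_MEA → G_NUL → G_EXC := by
  intro hE hC hm hN
  obtain ⟨C, hC1, hC⟩ := hC
  refine ⟨C, hC1, ?_⟩
  intro n K hn hK hK0 hKt
  classical
  have hs := sum_eq (n := n) hm K hK
  have hae : ∀ᵐ x : Fin n → E, GP x ∧ Function.Injective fun i => (x i).1 :=
    (hN.2.1 (Fin n)).and (hN.2.2 (Fin n))
  have hlow : volume K ^ n ≤ (n.factorial : ENNReal) * vc n K := by
    rw [hs, ← PP_vol n K, ← setLIntegral_one]
    refine lintegral_mono_ae (ae_restrict_of_ae ?_)
    filter_upwards [hae] with x hx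
    obtain ⟨σ, hσ⟩ := hE n x hn hx.1 hx.2
    have : 1 ≤ (Finset.univ.filter fun σ : Equiv.Perm (Fin n) =>
        Cl (finRotate n) (x ∘ σ)).card := by
      rw [Nat.one_le_iff_ne_zero, Finset.card_ne_zero]
      exact ⟨σ, Finset.mem_filter.2 ⟨Finset.mem_univ _, hσ⟩⟩
    exact_mod_cast this
  have hup : (n.factorial : ENNReal) * vc n K ≤ ENNReal.ofReal (C ^ n) * volume K ^ n := by
    rw [hs, ← PP_vol n K, ← setLIntegral_const]
    refine lintegral_mono_ae (ae_restrict_of_ae ?_)
    filter_upwards [hae] with x hx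
    have h1 := hC n x hn hx.1 hx.2
    have h2 := ENNReal.ofReal_le_ofReal h1
    rw [ENNReal.ofReal_natCast] at h2
    refine le_trans (le_of_eq ?_) h2
    congr!
  have hVt : volume K ^ n ≠ ⊤ := ENNReal.pow_ne_top hKt
  have hV0 : volume K ^ n ≠ 0 := pow_ne_zero _ hK0
  have hUt : ENNReal.ofReal (C ^ n) * volume K ^ n ≠ ⊤ := ENNReal.mul_ne_top ENNReal.ofReal_ne_top hVt
  have hFt : (n.factorial : ENNReal) * vc n K ≠ ⊤ := ne_top_of_le_ne_top hUt hup
  have e1 : ((n.factorial : ENNReal) * vc n K).toReal = (n.factorial : ℝ) * vr n K := by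
    rw [ENNReal.toReal_mul, ENNReal.toReal_natCast]
    rfl
  have e2 : (volume K ^ n).toReal = ar K ^ n := by
    rw [ENNReal.toReal_pow]
    rfl
  have hpos : 0 < ar K ^ n := by
    rw [← e2]
    exact ENNReal.toReal_pos hV0 hVt
  have l1 : ar K ^ n ≤ (n.factorial : ℝ) * vr n K := by
    rw [← e1, ← e2]
    exact ENNReal.toReal_mono hFt hlow
  have l2 : (n.factorial : ℝ) * vr n K ≤ C ^ n * ar K ^ n := by
    have h := ENNReal.toReal_mono hUt hup
    rw [e1, ENNReal.toReal_mul, e2, ENNReal.toReal_ofReal (by positivity)] at h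
    exact h
  unfold w
  constructor
  · rw [le_div_iff₀ hpos, one_mul]
    exact l1
  · rw [div_le_iff₀ hpos]
    exact l2

end RP.PkEXC
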