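import Pool.Agent.Helper26.RP.Goals

/-! Packet TLM. -/

namespace RP.PkTLM

open MeasureTheory Filter Topology

theorem tlm : G_EXC → G_TRW → G_FEK → G_TRE → G_TLM := by
  intro hE hT hF hR
  obtain ⟨C, hC1, hC⟩ := hE
  obtain ⟨D, hD⟩ := hT
  have ho : orient (0, 0) (1, 0) (0, 1) ≠ 0 := by
    unfold orient; norm_num
  obtain ⟨hB, hA, -⟩ := hR.1 (0, 0) (1, 0) (0, 1) ho
  have hA' : ar T0 = 1 / 2 := by
    have e : T0 = tri (0, 0) (1, 0) (0, 1) := rfl
    rw [e, hA]
    unfold orient; norm_num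
  have hm : MeasurableSet T0 := hB.cpt.isClosed.measurableSet
  have hv0 : volume T0 ≠ 0 := by
    intro h
    unfold ar at hA'
    rw [h] at hA'
    norm_num at hA'
  have hvt : volume T0 ≠ ⊤ := hB.cpt.measure_lt_top.ne
  have hw : ∀ n : ℕ, 3 ≤ n → 1 ≤ w n T0 ∧ w n T0 ≤ C ^ n := fun n hn => hC n T0 hn hm hv0 hvt
  have hC0 : 0 < C := by linarith
  have hlog : 0 ≤ Real.log C := Real.log_nonneg hC1
  obtain ⟨g, hg0, hg⟩ := hF (fun n => Real.log (w n T0)) (Real.log C + D)
    (add_nonneg hlog (Nat.cast_nonneg D)) (by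
      intro n hn
      obtain ⟨h1, h2⟩ := hw n hn
      refine ⟨Real.log_nonneg h1, ?_⟩
      have h3 := Real.log_le_log (by linarith) h2
      rw [Real.log_pow] at h3
      have h4 : (0:ℝ) ≤ D * n := by positivity
      nlinarith) (by
      intro a b ha hb hab hba
      have h1 := hw a ha
      have h2 := hw b hb
      have h3 := hw (a + b + 6) (by omega)
      have h4 := hD a b ha hb hab hba
      have hab0 : (1:ℝ) ≤ (a:ℝ) + b := by
        have : (3:ℝ) ≤ a := by exact_mod_cast ha
        have : (3:ℝ) ≤ b := by exact_mod_cast hb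
        linarith
      have h5 := Real.log_le_log (mul_pos (by linarith) (by linarith)) h4
      rw [Real.log_mul (by linarith : w a T0 ≠ 0) (by linarith : w b T0 ≠ 0),
        Real.log_mul (by positivity) (by linarith : w (a + b + 6) T0 ≠ 0), Real.log_pow] at h5
      have h6 : 0 ≤ Real.log C * Real.log ((a:ℝ) + b) :=
        mul_nonneg hlog (Real.log_nonneg hab0)
      show Real.log (w a T0) + Real.log (w b T0) - (Real.log C + D) * Real.log (a + b) ≤
        Real.log (w (a + b + 6) T0)
      nlinarith)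
  refine ⟨g, hg0, ?_⟩
  intro p q r hpqr
  have hwe : ∀ n, w n (tri p q r) = w n T0 := (hR.1 p q r hpqr).2.2
  constructor
  · intro ε hε
    have h1 : ∀ᶠ n : ℕ in atTop, g - ε < Real.log (w n T0) / n :=
      hg.eventually (lt_mem_nhds (by linarith))
    filter_upwards [h1, eventually_ge_atTop 3] with n h2 hn
    have hn0 : (0:ℝ) < n := by
      have : (3:ℝ) ≤ n := by exact_mod_cast hn
      linarith
    rw [hwe n]
    rw [lt_div_iff₀ hn0] at h2
    have h3 : 0 < w n T0 := by linarith [(hw n hn).1]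
    rw [← Real.le_log_iff_exp_le h3]
    exact h2.le
  · intro ε hε
    have h1 : ∀ᶠ n : ℕ in atTop, Real.log (w n T0) / n < g + ε :=
      hg.eventually (gt_mem_nhds (by linarith))
    filter_upwards [h1, eventually_ge_atTop 3] with n h2 hn
    have hn0 : (0:ℝ) < n := by
      have : (3:ℝ) ≤ n := by exact_mod_cast hn
      linarith
    rw [hwe n]
    rw [div_lt_iff₀ hn0] at h2
    have h3 : 0 < w n T0 := by linarith [(hw n hn).1]
    rw [← Real.log_le_iff_le_exp h3]
    exact h2.le

end RP.PkTLM
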